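import Pool.Agent.helper93.TV.Spec2

namespace Pool.Agent.helper93.TV

open BigOperators Finset Matrix

theorem SJ_row {V : Type} [DecidableEq V] (S : Finset (List V)) (B : Finset V)
    (A A' : V → List V → ℂ)
    (ho : ∀ β ∈ B, ∀ β' ∈ B, ∑ p ∈ S, A β p * star (A β' p) = if β = β' then 1 else 0)
    (hK : ∀ p q, ∑ β ∈ B, star (A' β p) * A' β q = ∑ β ∈ B, star (A β p) * A β q) :
    (∀ v ∈ B, ∀ p, ∑ x ∈ B, (∑ q ∈ S, A v q * star (A' x q)) * A' x p = A v p) ∧
    ∀ v ∈ B, ∀ w ∈ B, ∑ x ∈ B, (∑ p ∈ S, A v p * star (A' x p)) *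
      star (∑ q ∈ S, A w q * star (A' x q)) = if v = w then 1 else 0 := by
  have h1 : ∀ v ∈ B, ∀ p, ∑ x ∈ B, (∑ q ∈ S, A v q * star (A' x q)) * A' x p = A v p := by
    intro v hv p
    have e1 : ∑ x ∈ B, (∑ q ∈ S, A v q * star (A' x q)) * A' x p =
        ∑ q ∈ S, A v q * ∑ x ∈ B, star (A' x q) * A' x p := by
      simp only [Finset.sum_mul, Finset.mul_sum]
      rw [Finset.sum_comm]
      refine Finset.sum_congr rfl fun q _ => Finset.sum_congr rfl fun x _ => ?_
      ring
    rw [e1]
    have e2 : ∑ q ∈ S, A v q * ∑ x ∈ B, star (A' x q) * A' x p =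
        ∑ x ∈ B, (∑ q ∈ S, A v q * star (A x q)) * A x p := by
      simp only [hK]
      simp only [Finset.sum_mul, Finset.mul_sum]
      rw [Finset.sum_comm]
      refine Finset.sum_congr rfl fun q _ => Finset.sum_congr rfl fun x _ => ?_
      ring
    rw [e2]
    have e3 : ∑ x ∈ B, (∑ q ∈ S, A v q * star (A x q)) * A x p =
        ∑ x ∈ B, if v = x then A x p else 0 := by
      refine Finset.sum_congr rfl fun x hx => ?_
      rw [ho v hv x hx]
      split_ifs <;> simp
    rw [e3, Finset.sum_ite_eq]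
    simp [hv]
  refine ⟨h1, fun v hv w hw => ?_⟩
  have e1 : ∑ x ∈ B, (∑ p ∈ S, A v p * star (A' x p)) *
      star (∑ q ∈ S, A w q * star (A' x q)) =
      ∑ q ∈ S, (∑ x ∈ B, (∑ p ∈ S, A v p * star (A' x p)) * A' x q) * star (A w q) := by
    simp only [star_sum, star_mul', star_star]
    simp only [Finset.sum_mul, Finset.mul_sum]
    rw [Finset.sum_comm]
    refine Finset.sum_congr rfl fun q _ => Finset.sum_congr rfl fun x _ =>
      Finset.sum_congr rfl fun p _ => ?_
    ring
  rw [e1]
  have e2 : ∑ q ∈ S, (∑ x ∈ B, (∑ p ∈ S, A v p * star (A' x p)) * A' x q) * star (A w q) =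
      ∑ q ∈ S, A v q * star (A w q) := by
    refine Finset.sum_congr rfl fun q _ => ?_
    rw [h1 v hv q]
  rw [e2]
  exact ho v hv w hw

theorem SJ : SJ_stmt := by
  intro I V _ _ _ _ D X c m bp J J' hJ hJ'
  classical
  set u : V → V → ℂ := fun β β' =>
    if D.s1 β = D.s1 β' ∧ D.s2 β = D.s2 β' then
      ∑ p ∈ lists V m, J' β p * star (J β' p) else 0 with hu
  -- the block of a vertex
  set B : V → Finset V := fun v => univ.filter (fun β => D.s1 β = D.s1 v ∧ D.s2 β = D.s2 v)
    with hB
  have hmem : ∀ v x, x ∈ B v ↔ D.s1 x = D.s1 v ∧ D.s2 x = D.s2 v := by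
    intro v x
    simp [hB]
  have orth : ∀ (A : V → List V → ℂ), D.JS X c m bp A → ∀ v, ∀ β ∈ B v, ∀ β' ∈ B v,
      ∑ p ∈ lists V m, A β p * star (A β' p) = if β = β' then 1 else 0 := by
    intro A hA v β hβ β' hβ'
    rw [hmem] at hβ hβ'
    exact hA.orth β β' (hβ.1.trans hβ'.1.symm) (hβ.2.trans hβ'.2.symm)
  have hK : ∀ (A A' : V → List V → ℂ), D.JS X c m bp A → D.JS X c m bp A' → ∀ v p q,
      ∑ β ∈ B v, star (A' β p) * A' β q = ∑ β ∈ B v, star (A β p) * A β q := by
    intro A A' hA hA' v p q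
    have h1 := hA.comp (D.s1 v) (D.s2 v) p q
    have h2 := hA'.comp (D.s1 v) (D.s2 v) p q
    rw [← h2] at h1
    exact h1.symm
  have uout : ∀ v x, x ∉ B v → u v x = 0 := by
    intro v x hx
    simp only [hu]
    rw [if_neg]
    rintro ⟨h1, h2⟩
    exact hx ((hmem v x).mpr ⟨h1.symm, h2.symm⟩)
  have uin : ∀ v x, x ∈ B v → u v x = ∑ p ∈ lists V m, J' v p * star (J x p) := by
    intro v x hx
    simp only [hu]
    rw [if_pos]
    rw [hmem] at hx
    exact ⟨hx.1.symm, hx.2.symm⟩
  have uin' : ∀ v x, x ∈ B v → u x v = ∑ p ∈ lists V m, J' x p * star (J v p) := by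
    intro v x hx
    simp only [hu]
    rw [if_pos]
    rw [hmem] at hx
    exact ⟨hx.1, hx.2⟩
  have uout' : ∀ v x, x ∉ B v → u x v = 0 := by
    intro v x hx
    simp only [hu]
    rw [if_neg]
    rintro ⟨h1, h2⟩
    exact hx ((hmem v x).mpr ⟨h1, h2⟩)
  have hself : ∀ v, v ∈ B v := fun v => (hmem v v).mpr ⟨rfl, rfl⟩
  have hsame : ∀ v w, w ∈ B v → B w = B v := by
    intro v w hw
    rw [hmem] at hw
    ext x
    rw [hmem, hmem, hw.1, hw.2]
  refine ⟨u, ⟨?_, ?_, ?_⟩, ?_⟩
  · intro v w hvw
    have hw : w ∈ B v := by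
      by_contra h
      exact hvw (uout v w h)
    have h1 := uin v w hw
    rw [hmem] at hw
    refine ⟨hw.1.symm, hw.2.symm, ?_⟩
    rw [h1] at hvw
    obtain ⟨p, _, hp2⟩ := Finset.exists_ne_zero_of_sum_ne_zero hvw
    have hp3 : J' v p ≠ 0 := left_ne_zero_of_mul hp2
    have hp4 : J w p ≠ 0 := by
      have := right_ne_zero_of_mul hp2
      simpa using this
    have a1 := (hJ'.supp v p hp3).2.2
    have a2 := (hJ.supp w p hp4).2.2
    rw [← a1, ← a2, hw.1]
  · intro v w
    have e0 : ∑ x, u v x * star (u w x) = ∑ x ∈ B v, u v x * star (u w x) := by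
      symm
      refine Finset.sum_subset (Finset.subset_univ _) fun x _ hx => ?_
      rw [uout v x hx, zero_mul]
    rw [e0]
    by_cases hw : w ∈ B v
    · have e1 : ∑ x ∈ B v, u v x * star (u w x) =
          ∑ x ∈ B v, (∑ p ∈ lists V m, J' v p * star (J x p)) *
            star (∑ q ∈ lists V m, J' w q * star (J x q)) := by
        refine Finset.sum_congr rfl fun x hx => ?_
        rw [uin v x hx, uin w x (by rw [hsame v w hw]; exact hx)]
      rw [e1]
      exact (SJ_row (lists V m) (B v) J' J (orth J' hJ' v) (hK J' J hJ' hJ v)).2 v (hself v) w hw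
    · have hne : v ≠ w := fun h => hw (h ▸ hself v)
      rw [if_neg hne]
      refine Finset.sum_eq_zero fun x hx => ?_
      have : u w x = 0 := by
        refine uout w x fun h => hw ?_
        have h1 := (hmem _ _).mp h
        have h2 := (hmem _ _).mp hx
        exact (hmem _ _).mpr ⟨h1.1.symm.trans h2.1, h1.2.symm.trans h2.2⟩
      rw [this, star_zero, mul_zero]
  · intro v w
    have e0 : ∑ x, star (u x v) * u x w = ∑ x ∈ B v, star (u x v) * u x w := by
      symm
      refine Finset.sum_subset (Finset.subset_univ _) fun x _ hx => ?_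
      rw [uout' v x hx, star_zero, zero_mul]
    rw [e0]
    by_cases hw : w ∈ B v
    · have e1 : ∑ x ∈ B v, star (u x v) * u x w =
          ∑ x ∈ B v, (∑ p ∈ lists V m, J v p * star (J' x p)) *
            star (∑ q ∈ lists V m, J w q * star (J' x q)) := by
        refine Finset.sum_congr rfl fun x hx => ?_
        rw [uin' v x hx, uin' w x (by rw [hsame v w hw]; exact hx)]
        congr 1
        · rw [star_sum]
          refine Finset.sum_congr rfl fun p _ => ?_
          rw [star_mul', star_star, mul_comm]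
        · rw [star_sum]
          refine Finset.sum_congr rfl fun p _ => ?_
          rw [star_mul', star_star, mul_comm]
      rw [e1]
      exact (SJ_row (lists V m) (B v) J J' (orth J hJ v) (hK J J' hJ hJ' v)).2 v (hself v) w hw
    · have hne : v ≠ w := fun h => hw (h ▸ hself v)
      rw [if_neg hne]
      refine Finset.sum_eq_zero fun x hx => ?_
      have : u x w = 0 := by
        refine uout' w x fun h => hw ?_
        have h1 := (hmem _ _).mp h
        have h2 := (hmem _ _).mp hx
        exact (hmem _ _).mpr ⟨h1.1.symm.trans h2.1, h1.2.symm.trans h2.2⟩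
      rw [this, mul_zero]
  · funext v p
    have e0 : ∑ x, u v x * J x p = ∑ x ∈ B v, u v x * J x p := by
      symm
      refine Finset.sum_subset (Finset.subset_univ _) fun x _ hx => ?_
      rw [uout v x hx, zero_mul]
    rw [e0]
    have e1 : ∑ x ∈ B v, u v x * J x p =
        ∑ x ∈ B v, (∑ q ∈ lists V m, J' v q * star (J x q)) * J x p := by
      refine Finset.sum_congr rfl fun x hx => ?_
      rw [uin v x hx]
    rw [e1]
    exact ((SJ_row (lists V m) (B v) J' J (orth J' hJ' v) (hK J' J hJ' hJ v)).1 v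
      (hself v) p).symm

end Pool.Agent.helper93.TV
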